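import Pool.Agent.R3.Stmts

/-!
# FIN: from permutations to three perfect matchings of a bipartite multigraph
-/

set_option autoImplicit false

namespace Pool.Agent.R3.H65

open Pool.Agent.R3

theorem fin3 (gen : GenStmt) : FinStmt := by
  intro R C _ _ _ f a ha
  obtain ⟨σ, hσ⟩ : ∃ σ : Fin 3 → Equiv.Perm R, σ = fun j => (f j).trans (f 0).symm := ⟨_, rfl⟩
  have h0 : σ 0 = 1 := by
    rw [hσ]
    ext v
    simp
  obtain ⟨l, x, y, ⟨hx, -, hinj⟩, h1, h2⟩ := gen R σ h0 (a 1) (a 2) (by omega)
  -- the rows with label zero
  have hsum : ct l 0 + ct l 1 + ct l 2 = Fintype.card R := by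
    have h := Finset.card_eq_sum_card_fiberwise (f := l) (s := (Finset.univ : Finset R))
      (t := (Finset.univ : Finset (Fin 3))) (fun v _ => Finset.mem_coe.2 (Finset.mem_univ _))
    rw [Fin.sum_univ_three, Finset.card_univ] at h
    exact h.symm
  have hx' : x ∈ Finset.univ.filter (fun v => l v = 0) := by
    rw [Finset.mem_filter]
    exact ⟨Finset.mem_univ _, hx⟩
  have hc : a 0 ≤ ((Finset.univ.filter (fun v => l v = 0)).erase x).card := by
    rw [Finset.card_erase_of_mem hx']
    have : (Finset.univ.filter (fun v => l v = 0)).card = ct l 0 := rfl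
    rw [this]
    omega
  obtain ⟨A0, hA0, hA0c⟩ := Finset.exists_subset_card_eq hc
  refine ⟨fun i => if i = 0 then A0 else Finset.univ.filter (fun v => l v = i), ?_, ?_, ?_⟩
  · intro i
    fin_cases i
    · exact hA0c
    · exact h1
    · exact h2
  · -- every member of `A i` has the label `i`
    have key : ∀ i : Fin 3, ∀ v ∈ (if i = 0 then A0 else
        Finset.univ.filter (fun v => l v = i)), l v = i := by
      intro i v hv
      by_cases hi : i = 0
      · rw [if_pos hi] at hv
        have := hA0 hv
        rw [Finset.mem_erase, Finset.mem_filter] at this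
        rw [hi]
        exact this.2.2
      · rw [if_neg hi, Finset.mem_filter] at hv
        exact hv.2
    intro i j hij
    rw [Finset.disjoint_left]
    intro v hv hv'
    exact hij ((key i v hv).symm.trans (key j v hv'))
  · have key : ∀ i : Fin 3, ∀ v ∈ (if i = 0 then A0 else
        Finset.univ.filter (fun v => l v = i)), l v = i ∧ v ≠ x := by
      intro i v hv
      by_cases hi : i = 0
      · rw [if_pos hi] at hv
        have := hA0 hv
        rw [Finset.mem_erase, Finset.mem_filter] at this
        rw [hi]
        exact ⟨this.2.2, this.1⟩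
      · rw [if_neg hi, Finset.mem_filter] at hv
        refine ⟨hv.2, ?_⟩
        intro h
        rw [h, hx] at hv
        exact hi hv.2.symm
    intro i j r hr s hs h
    obtain ⟨hr1, hr2⟩ := key i r hr
    obtain ⟨hs1, hs2⟩ := key j s hs
    apply hinj r s hr2 hs2
    unfold ph
    rw [hr1, hs1, hσ]
    show (f 0).symm (f i r) = (f 0).symm (f j s)
    rw [h]

end Pool.Agent.R3.H65
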